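import Pool.Agent.Q83.ConvPow3

/-!
# A mean ergodic convolution operator that is not power bounded

On the discrete group which is the direct sum of countably many copies of the group of order two
there is a bounded measure such that, for every `p` in `(1, ∞)` different from `2`, the operator of
convolution by the measure is mean ergodic on the `p`-summable functions, but not power bounded.
-/

set_option autoImplicit false
open NormedSpace Filter Topology
open scoped ENNReal

namespace Pool.Agent.Results.MP_27f8b5_an.Torsion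

open Q83.ConvPow

/-- The discrete group `⨁ ℤ/2` (countably many summands). -/
abbrev G : Type := ℕ →₀ ZMod 2

/-- The Banach space `ℓ^p(G)`. -/
noncomputable abbrev Ell (p : ℝ≥0∞) := lp (fun _ : G => ℂ) p

/-- Bounded linear operators on `ℓ^p(G)`. -/
abbrev Op (p : ℝ≥0∞) [Fact (1 ≤ p)] := Ell p →L[ℂ] Ell p

/-- The operator `T` is convolution by the measure with weights `a` on the discrete group `G`:
`(T f)(x) = ∑ a(y) f(x - y)`. -/
def IsConvolution {p : ℝ≥0∞} [Fact (1 ≤ p)] (a : G → ℂ) (T : Op p) : Prop :=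
  ∀ (f : Ell p) (x : G), T f x = ∑' y : G, a y * f (x - y)

/-- Mean ergodic: the means `(1/n) ∑_{k<n} T^k x` converge for every `x`. -/
def MeanErgodic {X : Type*} [NormedAddCommGroup X] [NormedSpace ℂ X] (T : X →L[ℂ] X) : Prop :=
  ∀ x : X, ∃ y : X, Tendsto (fun n : ℕ => (n : ℂ)⁻¹ • ∑ k ∈ Finset.range n, (T ^ k) x) atTop (𝓝 y)

/-- Power bounded: the norms of the powers are bounded. -/
def PowerBounded {X : Type*} [NormedAddCommGroup X] [NormedSpace ℂ X] (T : X →L[ℂ] X) : Prop :=
  ∃ C : ℝ, ∀ n : ℕ, ‖T ^ n‖ ≤ C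

/-- `T` is mean ergodic but not power bounded. -/
def MeanErgodicUnbounded {X : Type*} [NormedAddCommGroup X] [NormedSpace ℂ X]
    (T : X →L[ℂ] X) : Prop :=
  MeanErgodic T ∧ ¬ PowerBounded T

/-- Convolution by the weights `a` is a bounded operator on `ℓ^p(G)` which is mean ergodic but not
power bounded. -/
def IsCounterexample (a : G → ℂ) (p : ℝ≥0∞) [Fact (1 ≤ p)] : Prop :=
  ∃ T : Op p, IsConvolution a T ∧ MeanErgodicUnbounded T

theorem result : ∃ a : G → ℂ, Summable (fun g => ‖a g‖) ∧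
    ∀ (p : ℝ≥0∞) [Fact (1 ≤ p)], 1 < p → p ≠ ⊤ → p ≠ 2 → IsCounterexample a p := by
  classical
  refine ⟨(-(UU (p := 1) one_ne_top')) (lp.single 1 0 1), ?_, ?_⟩
  · have h := (lp.memℓp ((-(UU (p := 1) one_ne_top')) (lp.single 1 0 1))).summable (p := 1)
      (by norm_num)
    simpa only [ENNReal.toReal_one, Real.rpow_one] using h
  · intro p hp1 _ hp hp2
    refine ⟨-(UU (p := p) hp), ?_, ?_, ?_⟩
    · intro f x
      exact (tw_UU (p := p) hp).neg.conv f x
    · intro x
      refine ⟨0, ?_⟩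
      set U := UU (p := p) hp with hU
      have hunit : IsUnit (1 + U) :=
        isUnit_one_add (sg (p := p) hp) (sg_norm hp) (sg_sq hp) (sg_comm hp)
      obtain ⟨V, hV⟩ := hunit.exists_left_inv
      have hgeo : ∀ n : ℕ, ∑ k ∈ Finset.range n, (-U) ^ k = V * (1 - (-U) ^ n) := by
        intro n
        have h1 := mul_neg_geom_sum (-U) n
        rw [sub_neg_eq_add] at h1
        rw [← h1, ← mul_assoc, hV, one_mul]
      have hbound : ∀ n : ℕ, 1 ≤ n → ‖(n : ℂ)⁻¹ • ∑ k ∈ Finset.range n, ((-U) ^ k) x‖ ≤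
          (‖V‖ * ‖x‖) * ((n : ℝ)⁻¹ + Real.exp 1 * Real.sqrt 2 * (Real.sqrt n)⁻¹) := by
        intro n hn
        have h1 : ∑ k ∈ Finset.range n, ((-U) ^ k) x = (V * (1 - (-U) ^ n)) x := by
          rw [← hgeo, sum_apply]
        have h2 : ‖(-U) ^ n‖ ≤ Real.exp 1 * Real.sqrt (2 * n) := by
          rw [neg_pow]
          refine (norm_mul_le _ _).trans ?_
          have h3 : ‖((-1 : lp (fun _ : G => ℂ) p →L[ℂ] lp (fun _ : G => ℂ) p)) ^ n‖ ≤ 1 := by
            refine (norm_pow_le _ _).trans ?_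
            rw [norm_neg, norm_one, one_pow]
          have h4 := norm_pow_upper (sg (p := p) hp) (sg_norm hp) (sg_sq hp) (sg_comm hp) n hn
          calc _ ≤ 1 * (Real.exp 1 * Real.sqrt (2 * n)) :=
                mul_le_mul h3 h4 (norm_nonneg _) zero_le_one
            _ = _ := one_mul _
        rw [norm_smul, norm_inv, Complex.norm_natCast, h1]
        have h5 : ‖(V * (1 - (-U) ^ n)) x‖ ≤ ‖V‖ * (1 + Real.exp 1 * Real.sqrt (2 * n)) * ‖x‖ := by
          refine ((V * (1 - (-U) ^ n)).le_opNorm x).trans ?_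
          gcongr
          refine (norm_mul_le _ _).trans ?_
          gcongr
          refine (norm_sub_le _ _).trans ?_
          rw [norm_one]
          gcongr
        have hn0 : (0 : ℝ) < n := by exact_mod_cast hn
        have hs : Real.sqrt n * Real.sqrt n = n := Real.mul_self_sqrt hn0.le
        have hs0 : 0 < Real.sqrt n := Real.sqrt_pos.2 hn0
        calc (n : ℝ)⁻¹ * ‖(V * (1 - (-U) ^ n)) x‖
            ≤ (n : ℝ)⁻¹ * (‖V‖ * (1 + Real.exp 1 * Real.sqrt (2 * n)) * ‖x‖) := by gcongr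
          _ = (‖V‖ * ‖x‖) * ((n : ℝ)⁻¹ + Real.exp 1 * Real.sqrt 2 * (Real.sqrt n)⁻¹) := by
              have e1 : Real.sqrt (2 * n) = Real.sqrt 2 * Real.sqrt n :=
                Real.sqrt_mul (by norm_num) _
              have e2 : (n : ℝ)⁻¹ * Real.sqrt n = (Real.sqrt n)⁻¹ := by
                field_simp
                rw [pow_two, hs]
              rw [e1]
              calc (n : ℝ)⁻¹ * (‖V‖ * (1 + Real.exp 1 * (Real.sqrt 2 * Real.sqrt n)) * ‖x‖)
                  = (‖V‖ * ‖x‖) * ((n : ℝ)⁻¹ + Real.exp 1 * Real.sqrt 2 *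
                    ((n : ℝ)⁻¹ * Real.sqrt n)) := by ring
                _ = _ := by rw [e2]
      rw [tendsto_zero_iff_norm_tendsto_zero]
      have hlim : Tendsto (fun n : ℕ => (‖V‖ * ‖x‖) *
          ((n : ℝ)⁻¹ + Real.exp 1 * Real.sqrt 2 * (Real.sqrt n)⁻¹)) atTop (𝓝 0) := by
        have l1 : Tendsto (fun n : ℕ => ((n : ℝ))⁻¹) atTop (𝓝 0) := tendsto_inv_atTop_nhds_zero_nat
        have l2 : Tendsto (fun n : ℕ => (Real.sqrt (n : ℝ))⁻¹) atTop (𝓝 0) :=
          tendsto_inv_atTop_zero.comp (Real.tendsto_sqrt_atTop.comp tendsto_natCast_atTop_atTop)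
        have l3 := (l1.add (l2.const_mul (Real.exp 1 * Real.sqrt 2))).const_mul (‖V‖ * ‖x‖)
        simpa using l3
      refine squeeze_zero' (Eventually.of_forall fun n => norm_nonneg _) ?_ hlim
      filter_upwards [eventually_ge_atTop 1] with n hn
      exact hbound n hn
    · rintro ⟨C, hC⟩
      obtain ⟨n, hn⟩ := UU_unbounded (p := p) hp hp2 C
      have h1 := hC n
      have h2 : UU (p := p) hp ^ n = (-1) ^ n * (-(UU (p := p) hp)) ^ n := by
        conv_lhs => rw [← neg_neg (UU (p := p) hp)]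
        exact neg_pow _ _
      have h3 : ‖UU (p := p) hp ^ n‖ ≤ ‖(-(UU (p := p) hp)) ^ n‖ := by
        rw [h2]
        refine (norm_mul_le _ _).trans ?_
        have h4 : ‖((-1 : lp (fun _ : G => ℂ) p →L[ℂ] lp (fun _ : G => ℂ) p)) ^ n‖ ≤ 1 := by
          refine (norm_pow_le _ _).trans ?_
          rw [norm_neg, norm_one, one_pow]
        exact mul_le_of_le_one_left (norm_nonneg _) h4
      linarith

end Pool.Agent.Results.MP_27f8b5_an.Torsion
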